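import Pool.Agent.H.MP_9ec5dc_an.A

set_option autoImplicit false

open Filter Topology

namespace Pool.Agent.Results.MP_9ec5dc_an.Lower

/-- the n-th diameter -/
noncomputable def dn (E : Set ℂ) (n : ℕ) : ℝ :=
  (sSup ((fun w : Fin n → ℂ => ∏ i, ∏ j ∈ Finset.Ioi i, ‖w j - w i‖) '' {w | ∀ i, w i ∈ E})) ^
    ((2 : ℝ) / ((n : ℝ) * ((n : ℝ) - 1)))

theorem result (E : Set ℂ) (hE : IsCompact E) (hd : Tendsto (dn E) atTop (𝓝 1))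
    (n : ℕ) (hn : 2 ≤ n) : (n : ℝ) ^ ((1 : ℝ) / ((n : ℝ) - 1)) ≤ dn E n :=
  H.MP_9ec5dc_an.main E hE hd n hn

end Pool.Agent.Results.MP_9ec5dc_an.Lower
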